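import Pool.Agent.Helper49.RU.St

/-!
# Project RU, module REC: transfinite recursion
-/

set_option autoImplicit false

namespace Pool.Agent.Helper15.RU

open Pool.Agent.Helper49.RU
open MeasureTheory Filter Topology Complex
open scoped ENNReal Cardinal ComplexConjugate

theorem hREC : StREC := by
  classical
  intro ι P r _ le D H
  by_cases hι : Nonempty ι
  · have wf : WellFounded r := IsWellFounded.wf
    obtain ⟨i₀, hi₀⟩ : ∃ i₀ : ι, ∀ j, ¬ r j i₀ := by
      obtain ⟨x⟩ := hι
      refine ⟨wf.min Set.univ ⟨x, trivial⟩, fun j hj => ?_⟩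
      exact wf.not_lt_min Set.univ (Set.mem_univ j) hj
    obtain ⟨p₀, _, _⟩ := H i₀ (fun j => absurd j.2 (hi₀ j.1)) (fun a => absurd a.2 (hi₀ a.1))
    let F : ∀ i : ι, (∀ j, r j i → P) → P := fun i rec =>
      if hd : ∀ a b : {j // r j i}, r a b → le (rec b b.2) (rec a a.2) then
        (H i (fun a => rec a a.2) hd).choose else p₀
    let g : ι → P := wf.fix F
    have hg : ∀ i, g i = F i (fun j _ => g j) := fun i => wf.fix_eq F i
    have key : ∀ i, g i ∈ D i ∧ ∀ j, r j i → le (g i) (g j) := by
      intro i
      induction i using wf.induction with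
      | _ i ih =>
        have hd : ∀ a b : {j // r j i}, r a b → le (g b) (g a) := fun a b hab =>
          (ih b b.2).2 a hab
        have hgi : g i = (H i (fun a : {j // r j i} => g a) hd).choose := by
          rw [hg i]
          exact dif_pos hd
        obtain ⟨h1, h2⟩ := (H i (fun a : {j // r j i} => g a) hd).choose_spec
        rw [hgi]
        exact ⟨h1, fun j hj => h2 ⟨j, hj⟩⟩
    exact ⟨g, fun i => (key i).1, fun i j hj => (key i).2 j hj⟩
  · rw [not_nonempty_iff] at hι
    exact ⟨fun i => isEmptyElim i, fun i => isEmptyElim i, fun i => isEmptyElim i⟩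

end Pool.Agent.Helper15.RU
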